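import Mathlib
import Pool.Agent.H317R3.Free
import Pool.Agent.H317R3.Poly
import Pool.Agent.W681.RC.Pattern

/-!
# No joint returns along `(n, 2 n, a n)` for all sequences `a` with gaps tending to infinity
-/

set_option autoImplicit false

namespace Pool.Agent.Y290.RC

open Filter Topology Pool.Agent.H317R3 Pool.Agent.W681.RC Polynomial

/-- a sequence of integers with gaps tending to infinity as a sparse sequence of natural numbers -/
lemma seq_of_gaps (a : ℤ → ℤ) (ha : Tendsto (fun n : ℤ => a (n + 1) - a n) atTop atTop) :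
    ∃ (t : ℕ → ℕ) (N : ℕ), StrictMono t ∧ GapsInf (Set.range t) ∧
      ∀ i : ℕ, ((t i : ℕ) : ℤ) = a ((N + i : ℕ) : ℤ) := by
  obtain ⟨m, hm⟩ := (ha.eventually_ge_atTop 1).exists_forall_of_atTop
  have hgr : ∀ i : ℕ, a (m.toNat : ℤ) + i ≤ a ((m.toNat : ℤ) + i) := by
    intro i
    induction i with
    | zero => simp
    | succ i ih =>
      have h1 := hm ((m.toNat : ℤ) + i) (by have := Int.self_le_toNat m; omega)
      push_cast
      rw [← add_assoc ((m.toNat : ℤ)) (i : ℤ) 1]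
      omega
  obtain ⟨N, hN⟩ : ∃ N : ℕ, N = m.toNat + (a (m.toNat : ℤ)).natAbs := ⟨_, rfl⟩
  have hnn : ∀ i : ℕ, 0 ≤ a ((N + i : ℕ) : ℤ) := by
    intro i
    have h1 := hgr ((a (m.toNat : ℤ)).natAbs + i)
    have h2 : ((N + i : ℕ) : ℤ) = (m.toNat : ℤ) + (((a (m.toNat : ℤ)).natAbs + i : ℕ) : ℤ) := by
      rw [hN]; push_cast; ring
    rw [h2]
    refine le_trans ?_ h1
    push_cast
    have h3 := neg_abs_le (a (m.toNat : ℤ))
    omega
  let t : ℕ → ℕ := fun i => (a ((N + i : ℕ) : ℤ)).toNat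
  have ht : ∀ i : ℕ, ((t i : ℕ) : ℤ) = a ((N + i : ℕ) : ℤ) := fun i => Int.toNat_of_nonneg (hnn i)
  have hmono : StrictMono t := by
    apply strictMono_nat_of_lt_succ
    intro i
    have h := hm ((N + i : ℕ) : ℤ) (by have := Int.self_le_toNat m; push_cast; omega)
    have h1 := ht i
    have h2 := ht (i + 1)
    have h3 : ((N + (i + 1) : ℕ) : ℤ) = ((N + i : ℕ) : ℤ) + 1 := by push_cast; ring
    rw [h3] at h2
    omega
  refine ⟨t, N, hmono, ?_, ht⟩
  intro A
  obtain ⟨K, hK⟩ := (ha.eventually_gt_atTop (A : ℤ)).exists_forall_of_atTop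
  refine ⟨t K.toNat, ?_⟩
  rintro _ ⟨i, rfl⟩ _ ⟨j, rfl⟩ h1 h2
  have hi : K.toNat ≤ i := hmono.le_iff_le.1 h1
  have hij : i + 1 ≤ j := hmono.lt_iff_lt.1 h2
  have h3 : t (i + 1) ≤ t j := hmono.monotone hij
  have h := hK ((N + i : ℕ) : ℤ) (by have := Int.self_le_toNat K; push_cast; omega)
  have h4 := ht i
  have h5 := ht (i + 1)
  have h6 : ((N + (i + 1) : ℕ) : ℤ) = ((N + i : ℕ) : ℤ) + 1 := by push_cast; ring
  rw [h6] at h5
  omega

/-- the gaps between the values of an integer polynomial of degree at least two -/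
lemma poly_tendsto (p : ℤ[X]) (hd : 2 ≤ p.natDegree) (hlc : 0 < p.leadingCoeff) :
    Tendsto (fun n : ℤ => p.eval (n + 1) - p.eval n) atTop atTop := by
  rw [tendsto_atTop]
  intro A
  obtain ⟨N, hN⟩ := poly_gap p hd hlc A
  filter_upwards [eventually_ge_atTop (N : ℤ)] with n hn
  have h1 := (hN n.toNat (by omega)).1
  have h2 : ((n.toNat : ℕ) : ℤ) = n := Int.toNat_of_nonneg (by omega)
  push_cast at h1
  rw [h2] at h1
  omega

/-- continuous maps of a compact metric space to a discrete one are constant on small balls -/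
lemma unif {X D : Type} [MetricSpace X] [CompactSpace X] [TopologicalSpace D]
    [DiscreteTopology D] {f : X → D} (hf : Continuous f) :
    ∃ ε : ℝ, 0 < ε ∧ ∀ x y, dist x y < ε → f x = f y := by
  have h1 : {q : X × X | f q.1 = f q.2} ∈ uniformity X := by
    rw [← nhdsSet_diagonal_eq_uniformity]
    have ho : IsOpen {q : X × X | f q.1 = f q.2} := by
      have h2 : {q : X × X | f q.1 = f q.2} = (fun q : X × X => (f q.1, f q.2)) ⁻¹'
          (Set.diagonal D) := by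
        ext q
        simp
      rw [h2]
      exact (isOpen_discrete _).preimage ((hf.comp continuous_fst).prodMk (hf.comp continuous_snd))
    refine ho.mem_nhdsSet.2 ?_
    rintro ⟨x, y⟩ hxy
    exact congrArg f hxy
  obtain ⟨ε, hε, h2⟩ := Metric.mem_uniformity_dist.1 h1
  exact ⟨ε, hε, fun x y hxy => h2 hxy⟩

/-- The system `(X, T)` is minimal: the orbit `{T^n x : n ∈ ℤ}` of every point `x` is dense. -/
def IsMinimal {X : Type} [TopologicalSpace X] (T : X ≃ₜ X) : Prop :=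
  ∀ x : X, Dense (Set.range fun n : ℤ => (T ^ n) x)

/-- There are `ε > 0` and `N` such that for no `n ≥ N` some point comes back `ε`-close to itself
both at the times `n` and `2 n` for `T` and at the time `a n` for `S`. -/
def NoReturns {X : Type} [MetricSpace X] (T S : X ≃ₜ X) (a : ℤ → ℤ) : Prop :=
  ∃ ε : ℝ, 0 < ε ∧ ∃ N : ℤ, ∀ n : ℤ, N ≤ n → ∀ x : X,
    ¬ (dist ((T ^ n) x) x < ε ∧ dist ((T ^ (2 * n)) x) x < ε ∧ dist ((S ^ (a n)) x) x < ε)

/-- For no point `x` there are integers `n i → ∞` with `T^(n i) x → x`, `T^(2 n i) x → x` and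
`S^(a (n i)) x → x`. -/
def NoRecurrence {X : Type} [TopologicalSpace X] (T S : X ≃ₜ X) (a : ℤ → ℤ) : Prop :=
  ∀ x : X, ¬ ∃ n : ℕ → ℤ, Tendsto n atTop atTop ∧
    Tendsto (fun i => (T ^ (n i)) x) atTop (𝓝 x) ∧
    Tendsto (fun i => (T ^ (2 * n i)) x) atTop (𝓝 x) ∧
    Tendsto (fun i => (S ^ (a (n i))) x) atTop (𝓝 x)

lemma NoReturns.noRecurrence {X : Type} [MetricSpace X] {T S : X ≃ₜ X} {a : ℤ → ℤ}
    (h : NoReturns T S a) : NoRecurrence T S a := by
  obtain ⟨ε, hε, N, hN⟩ := h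
  rintro x ⟨n, hn, h1, h2, h3⟩
  have e1 := h1.eventually (Metric.ball_mem_nhds x hε)
  have e2 := h2.eventually (Metric.ball_mem_nhds x hε)
  have e3 := h3.eventually (Metric.ball_mem_nhds x hε)
  obtain ⟨k, ⟨h4, h5⟩, h6, h7⟩ := ((e1.and e2).and (e3.and (hn.eventually_ge_atTop N))).exists
  exact hN (n k) h7 x ⟨h4, h5, h6⟩

/-- the case of gaps tending to `+∞` -/
theorem main_up : ∃ (X : Type) (_ : MetricSpace X) (_ : CompactSpace X) (_ : Nonempty X)
    (T : X ≃ₜ X), IsMinimal T ∧ ∀ a : ℤ → ℤ,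
      Tendsto (fun n : ℤ => a (n + 1) - a n) atTop atTop →
        ∃ S : X ≃ₜ X, IsMinimal S ∧ NoReturns T S a := by
  obtain ⟨P, hG, hN, hW⟩ := W681.RC.exists_seq Bool
  obtain ⟨c, hc⟩ : ∃ c, JJ P ≤ (P c).m := ⟨JJ P, m_ge hG hN _⟩
  obtain ⟨V, hV, hsep⟩ := exists_sep (P := P)
  have hfirst : ∀ N : ℕ, (P 0).m ≤ N → (P (c + 1)).m ≤ N →
      ∃ Φ : XS P ≃ₜ XX, ∀ x, (Φ x).1 = zz P N x := fun N hN0 hNc =>
    exists_split (zz_cont hG hN hW N) (zz_open hG hN hW N hN0)
      (zz_surj hG hN hW N c hc hNc) (zz_flip N) V hV hsep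
  obtain ⟨Φ0, -⟩ := hfirst (max (P 0).m (P (c + 1)).m) (le_max_left _ _) (le_max_right _ _)
  haveI : TopologicalSpace.MetrizableSpace (XS P) := Φ0.isEmbedding.metrizableSpace
  haveI : CompactSpace (XS P) := inferInstance
  refine ⟨XS P, TopologicalSpace.metrizableSpaceMetric (XS P), inferInstance,
    ⟨Φ0.symm (fun _ => false, fun _ => false)⟩, TT P, fun x => TT_min hG hN x, ?_⟩
  intro a ha
  obtain ⟨t, N2, ht, hgap, hta⟩ := seq_of_gaps a ha
  obtain ⟨N1, hfree⟩ := free_system t ht hgap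
  obtain ⟨M, hM⟩ : ∃ M, M = max N1 (max (P (c + 1)).m (P 0).m) := ⟨_, rfl⟩
  obtain ⟨N, hNd⟩ : ∃ N, N = N2 + M := ⟨_, rfl⟩
  have hNc : (P (c + 1)).m ≤ N := by
    have : (P (c + 1)).m ≤ M := by rw [hM]; exact (le_max_left _ _).trans (le_max_right _ _)
    omega
  have hN0 : (P 0).m ≤ N := by
    have : (P 0).m ≤ M := by rw [hM]; exact (le_max_right _ _).trans (le_max_right _ _)
    omega
  obtain ⟨S0, g, hg, hS0, hgr⟩ := hfree M (by rw [hM]; exact le_max_left _ _)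
  obtain ⟨Φ, hΦ⟩ := hfirst N hN0 hNc
  -- transport `S0` to the space of `TT`
  set S : XS P ≃ₜ XS P := (Φ.trans S0).trans Φ.symm with hS
  have hSp : ∀ (n : ℤ) (x : XS P), Φ ((S ^ n) x) = (S0 ^ n) (Φ x) := by
    intro n x
    have h1 := homeo_conj_zpow Φ.symm S0 n x
    rw [Homeomorph.symm_symm] at h1
    rw [hS, h1, Φ.apply_symm_apply]
  refine ⟨S, fun x => ?_, ?_⟩
  · have h1 : (fun n : ℤ => (S ^ n) x) = Φ.symm ∘ fun n : ℤ => (S0 ^ n) (Φ x) := by
      funext n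
      show (S ^ n) x = Φ.symm ((S0 ^ n) (Φ x))
      rw [← hSp, Φ.symm_apply_apply]
    rw [h1]
    exact Φ.symm.surjective.denseRange.comp (hS0 _) Φ.symm.continuous
  · letI := TopologicalSpace.metrizableSpaceMetric (XS P)
    obtain ⟨ε1, hε1, hu1⟩ := unif (cont1 (P := P) 0)
    obtain ⟨ε2, hε2, hu2⟩ := unif (X := XS P) (D := Fin (JJ P) → Bool)
      (f := fun x l => x.1.2.1 (l : ℕ)) (continuous_pi fun l => cont2 (P := P) ((l : ℕ) : ℤ))
    obtain ⟨ε3, hε3, hu3⟩ := unif (X := XS P) (f := fun x => g (Φ x)) (hg.comp Φ.continuous)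
    refine ⟨min ε1 (min ε2 ε3), lt_min hε1 (lt_min hε2 hε3), N, fun n hn x => ?_⟩
    rintro ⟨h1, h2, h3⟩
    have h4 := hu1 _ _ (h1.trans_le (min_le_left _ _))
    have h5 := hu2 _ _ (h2.trans_le ((min_le_right _ _).trans (min_le_left _ _)))
    have h6 := hu3 _ _ (h3.trans_le ((min_le_right _ _).trans (min_le_right _ _)))
    replace h6 : g (Φ ((S ^ (a n)) x)) = g (Φ x) := h6
    rw [hSp] at h6
    obtain ⟨i, hi⟩ : ∃ i : ℕ, n = ((N + i : ℕ) : ℤ) := ⟨(n - N).toNat, by push_cast; omega⟩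
    have hai : a n = (t (M + i) : ℤ) := by
      rw [hta, hi, hNd]
      congr 1
      push_cast
      ring
    rw [hai, hgr, hΦ] at h6
    have hell := (ell_spec hG hN hW (y := x.1.1.1) x.1.2.2).1
    have h7 := congrFun h5 ⟨ell x.1.1.1 x.1.2.1, hell⟩
    simp only at h7
    rw [TT_zpow, hi] at h4 h7
    have h8 : x.1.1.1 (0 + 2 * ((N + i : ℕ) : ℤ)) = x.1.1.1 0 := h4
    have h9 : x.1.2.1 ((ell x.1.1.1 x.1.2.1 : ℤ) + 2 * ((N + i : ℕ) : ℤ)) =
        x.1.2.1 (ell x.1.1.1 x.1.2.1) := h7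
    rw [zero_add] at h8
    have h10 := zz_false hG hN hW N hN0 x i h8 h9
    rw [h10] at h6
    simp at h6

/-- a homeomorphism may be replaced by its inverse -/
lemma neg_seq {X : Type} [MetricSpace X] {T S : X ≃ₜ X} {a : ℤ → ℤ}
    (h : NoReturns T S (fun n => -a n)) : NoReturns T S⁻¹ a := by
  obtain ⟨ε, hε, N, hN⟩ := h
  refine ⟨ε, hε, N, fun n hn x hx => hN n hn x ⟨hx.1, hx.2.1, ?_⟩⟩
  have h1 := hx.2.2
  rwa [inv_zpow'] at h1

lemma min_inv {X : Type} [TopologicalSpace X] {S : X ≃ₜ X} (h : IsMinimal S) :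
    IsMinimal S⁻¹ := by
  intro x
  have h1 : Set.range (fun n : ℤ => ((S⁻¹) ^ n) x) = Set.range fun n : ℤ => (S ^ n) x := by
    ext y
    constructor
    · rintro ⟨n, rfl⟩
      exact ⟨-n, by simp only; rw [inv_zpow']⟩
    · rintro ⟨n, rfl⟩
      exact ⟨-n, by simp only; rw [inv_zpow', neg_neg]⟩
  rw [h1]
  exact h x

/-- **One minimal system for all sparse sequences.** -/
theorem main : ∃ (X : Type) (_ : MetricSpace X) (_ : CompactSpace X) (_ : Nonempty X)
    (T : X ≃ₜ X), IsMinimal T ∧ ∀ a : ℤ → ℤ,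
      (Tendsto (fun n : ℤ => a (n + 1) - a n) atTop atTop ∨
        Tendsto (fun n : ℤ => a (n + 1) - a n) atTop atBot) →
        ∃ S : X ≃ₜ X, IsMinimal S ∧ NoReturns T S a := by
  obtain ⟨X, i1, i2, i3, T, hT, h⟩ := main_up
  refine ⟨X, i1, i2, i3, T, hT, fun a ha => ?_⟩
  rcases ha with ha | ha
  · exact h a ha
  · obtain ⟨S, hS, hn⟩ := h (fun n => -a n) (by
      have h1 := tendsto_neg_atBot_atTop.comp ha
      refine h1.congr fun n => ?_
      simp only [Function.comp_apply]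
      ring)
    exact ⟨S⁻¹, min_inv hS, neg_seq hn⟩

/-- integer polynomials of degree at least two have gaps tending to infinity -/
lemma poly_case (p : ℤ[X]) (hd : 2 ≤ p.natDegree) :
    Tendsto (fun n : ℤ => p.eval (n + 1) - p.eval n) atTop atTop ∨
      Tendsto (fun n : ℤ => p.eval (n + 1) - p.eval n) atTop atBot := by
  have hne : p.leadingCoeff ≠ 0 := by
    rw [Ne, leadingCoeff_eq_zero]
    rintro rfl
    simp at hd
  rcases lt_or_gt_of_ne hne with h | h
  · right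
    have h1 := poly_tendsto (-p) (by rwa [natDegree_neg]) (by rw [leadingCoeff_neg]; omega)
    have h2 := tendsto_neg_atTop_atBot.comp h1
    refine h2.congr fun n => ?_
    simp only [Function.comp_apply, eval_neg]
    ring
  · left
    exact poly_tendsto p hd h

end Pool.Agent.Y290.RC
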